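import Mathlib

/-! Boundaries of star-shaped bodies are spheres. -/

open Set Filter Topology Metric

namespace Pool.Agent.T9h72.HS

variable {E : Type*} [NormedAddCommGroup E] [NormedSpace ℝ E] [FiniteDimensional ℝ E]

theorem star_sphere {T : Set E} (hT : IsOpen T) (hb : Bornology.IsBounded T) (h0 : (0:E) ∈ T)
    (hs : ∀ x ∈ closure T, ∀ t : ℝ, 0 ≤ t → t < 1 → t • x ∈ T) :
    Nonempty (frontier T ≃ₜ sphere (0:E) 1) := by
  have hfr : frontier T = closure T \ T := hT.frontier_eq
  have hne : ∀ x ∈ frontier T, x ≠ 0 := by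
    rintro x hx rfl
    rw [hfr] at hx
    exact hx.2 h0
  have hcpt : IsCompact (frontier T) :=
    isCompact_of_isClosed_isBounded isClosed_frontier (hb.closure.subset frontier_subset_closure)
  have : CompactSpace (frontier T) := isCompact_iff_compactSpace.1 hcpt
  let φ : frontier T → sphere (0:E) 1 := fun x => ⟨‖(x:E)‖⁻¹ • (x:E), by
    rw [mem_sphere_zero_iff_norm, norm_smul, norm_inv, norm_norm,
      inv_mul_cancel₀ (norm_ne_zero_iff.2 (hne x x.2))]⟩
  have hφc : Continuous φ := by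
    refine Continuous.subtype_mk ?_ _
    refine Continuous.smul ?_ continuous_subtype_val
    exact (continuous_norm.comp continuous_subtype_val).inv₀
      fun x => norm_ne_zero_iff.2 (hne x x.2)
  have hkey : ∀ x ∈ frontier T, ∀ y ∈ frontier T, ‖x‖⁻¹ • x = ‖y‖⁻¹ • y → ¬ ‖y‖ < ‖x‖ := by
    intro x hx y hy hxy hlt
    have hx0 := norm_pos_iff.2 (hne x hx)
    have hy0 := norm_pos_iff.2 (hne y hy)
    have h1 : y = (‖y‖ * ‖x‖⁻¹) • x := by
      rw [mul_smul, hxy, smul_smul, mul_inv_cancel₀ hy0.ne', one_smul]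
    have h2 : y ∈ T := by
      rw [h1]
      rw [hfr] at hx
      apply hs x hx.1 _ (by positivity)
      rw [← div_eq_mul_inv, div_lt_one hx0]
      exact hlt
    rw [hfr] at hy
    exact hy.2 h2
  have hφi : Function.Injective φ := by
    intro x y hxy
    have h1 : ‖(x:E)‖⁻¹ • (x:E) = ‖(y:E)‖⁻¹ • (y:E) := congrArg Subtype.val hxy
    have h2 := hkey x x.2 y y.2 h1
    have h3 := hkey y y.2 x x.2 h1.symm
    have h4 : ‖(x:E)‖ = ‖(y:E)‖ := le_antisymm (not_lt.1 h2) (not_lt.1 h3)
    rw [h4] at h1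
    have h5 : ‖(y:E)‖⁻¹ ≠ 0 := inv_ne_zero (norm_ne_zero_iff.2 (hne y y.2))
    exact Subtype.ext (smul_right_injective E h5 h1)
  have hφs : Function.Surjective φ := by
    rintro ⟨v, hv⟩
    have hv1 : ‖v‖ = 1 := by simpa using hv
    obtain ⟨C, hC⟩ := hb.closure.exists_norm_le
    set A : Set ℝ := {t | 0 ≤ t ∧ t • v ∈ closure T} with hA
    have hAc : IsClosed A := by
      apply IsClosed.inter isClosed_Ici
      exact isClosed_closure.preimage (by fun_prop)
    have hAb : BddAbove A := by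
      refine ⟨C, fun t ht => ?_⟩
      have := hC _ ht.2
      rw [norm_smul, hv1, mul_one, Real.norm_eq_abs, abs_of_nonneg ht.1] at this
      exact this
    have hA0 : (0:ℝ) ∈ A := ⟨le_refl _, by rw [zero_smul]; exact subset_closure h0⟩
    have hmem := hAc.csSup_mem ⟨0, hA0⟩ hAb
    set t0 := sSup A with ht0
    have hnotT : t0 • v ∉ T := by
      intro hc
      have hcont : Continuous fun t : ℝ => t • v := by fun_prop
      have h1 : {t : ℝ | t • v ∈ T} ∈ 𝓝 t0 := (hT.preimage hcont).mem_nhds hc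
      obtain ⟨ε, hε, hε'⟩ := Metric.mem_nhds_iff.1 h1
      have h2 : t0 + ε / 2 ∈ A := by
        refine ⟨by have := hmem.1; positivity, subset_closure (hε' ?_)⟩
        rw [Metric.mem_ball, Real.dist_eq, add_sub_cancel_left, abs_of_pos (by positivity)]
        linarith
      have h3 := le_csSup hAb h2
      linarith
    have hfrm : t0 • v ∈ frontier T := by rw [hfr]; exact ⟨hmem.2, hnotT⟩
    have ht0pos : 0 < t0 := by
      rcases hmem.1.eq_or_lt with h | h
      · exfalso; apply hnotT; rw [← h, zero_smul]; exact h0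
      · exact h
    refine ⟨⟨t0 • v, hfrm⟩, Subtype.ext ?_⟩
    show ‖t0 • v‖⁻¹ • (t0 • v) = v
    rw [norm_smul, hv1, mul_one, Real.norm_eq_abs, abs_of_pos ht0pos, smul_smul,
      inv_mul_cancel₀ ht0pos.ne', one_smul]
  exact ⟨Continuous.homeoOfEquivCompactToT2 (f := Equiv.ofBijective φ ⟨hφi, hφs⟩) hφc⟩

omit [FiniteDimensional ℝ E] in
theorem star_connected {T : Set E} (h0 : (0:E) ∈ T)
    (hs : ∀ x ∈ closure T, ∀ t : ℝ, 0 ≤ t → t < 1 → t • x ∈ T) : IsConnected T := by
  have hst : StarConvex ℝ (0:E) T := by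
    intro x hx a b ha hb hab
    rw [smul_zero, zero_add]
    rcases (show b ≤ 1 by linarith).eq_or_lt with h | h
    · rw [h, one_smul]; exact hx
    · exact hs x (subset_closure hx) b hb h
  exact (hst.isPathConnected h0).isConnected

end Pool.Agent.T9h72.HS
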