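import Pool.Agent.T9h72.HS.Refl
import Pool.Agent.T9h72.HS.Star

/-! The outer body, the level and the contact set. -/

open MeasureTheory Set Filter Topology
open scoped ENNReal InnerProductSpace Pointwise

namespace Pool.Agent.T9h72.HS

open Pool.Agent.H283R3.Newt

/-- the outer body: a ball with two opposite caps cut off -/
def DD : Set E3 := {x | ‖x‖ < 1 ∧ |x 0| < 9 / 10}

lemma DD_open : IsOpen DD := by
  have h1 : IsOpen {x : E3 | ‖x‖ < 1} := isOpen_lt (by fun_prop) continuous_const
  have h2 : IsOpen {x : E3 | |x 0| < 9 / 10} := isOpen_lt (by fun_prop) continuous_const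
  exact h1.inter h2

lemma DD_ball : DD ⊆ Metric.ball 0 1 := fun x hx => by simpa using hx.1

lemma coord_le (x : E3) (i : Fin 3) : |x i| ≤ ‖x‖ := by
  have := PiLp.norm_apply_le (p := 2) x i
  simpa using this

lemma norm_mono {x y : E3} (h : ∀ i, |y i| ≤ |x i|) : ‖y‖ ≤ ‖x‖ := by
  rw [EuclideanSpace.norm_eq, EuclideanSpace.norm_eq]
  apply Real.sqrt_le_sqrt
  apply Finset.sum_le_sum
  intro i _
  rw [Real.norm_eq_abs, Real.norm_eq_abs]
  have := h i
  gcongr

lemma DD_UL : UL DD := fun _ hx _ h => ⟨(norm_mono h).trans_lt hx.1, (h 0).trans_lt hx.2⟩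

lemma ball_sub_DD : Metric.ball (0:E3) (9/10) ⊆ DD := by
  intro x hx
  rw [mem_ball_zero_iff] at hx
  exact ⟨by linarith, (coord_le x 0).trans_lt hx⟩

lemma zero_mem_DD : (0:E3) ∈ DD := ball_sub_DD (by simp)

lemma norm_of_not_mem {x : E3} (hx : x ∉ DD) : 9 / 10 ≤ ‖x‖ := by
  by_contra hc
  push Not at hc
  exact hx (ball_sub_DD (by rwa [mem_ball_zero_iff]))

lemma DD_star : ∀ x ∈ closure DD, ∀ t : ℝ, 0 ≤ t → t < 1 → t • x ∈ DD := by
  intro x hx t h0 h1
  have hx' : ‖x‖ ≤ 1 ∧ |x 0| ≤ 9 / 10 := by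
    have h1 : IsClosed {x : E3 | ‖x‖ ≤ 1} := isClosed_le (by fun_prop) continuous_const
    have h2 : IsClosed {x : E3 | |x 0| ≤ 9 / 10} := isClosed_le (by fun_prop) continuous_const
    have h3 : DD ⊆ {x : E3 | ‖x‖ ≤ 1} ∩ {x : E3 | |x 0| ≤ 9 / 10} := fun y hy =>
      ⟨hy.1.le, hy.2.le⟩
    exact closure_minimal h3 (h1.inter h2) hx
  refine ⟨?_, ?_⟩
  · rw [norm_smul, Real.norm_eq_abs, abs_of_nonneg h0]
    nlinarith [norm_nonneg x, hx'.1]
  · have : (t • x) 0 = t * x 0 := by simp
    rw [this, abs_mul, abs_of_nonneg h0]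
    nlinarith [abs_nonneg (x 0), hx'.2]

/-- the level -/
noncomputable def lev : ℝ := 3 * Real.pi / 2

lemma lev_pos : 0 < lev := by unfold lev; have := Real.pi_pos; positivity

lemma V_outside {f : E3 → ℝ} (hf : Adm DD f) {x : E3} (hx : x ∉ DD) : V f x < lev := by
  have h1 := (le_abs_self _).trans ((hf.good DD_ball).V_abs_le one_pos x)
  refine h1.trans_lt ?_
  have h2 := norm_of_not_mem hx
  have hpi := Real.pi_pos
  unfold Nn lev
  split_ifs with h
  · nlinarith [mul_pos hpi hpi, sq_nonneg (‖x‖ - 9/10)]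
  · push Not at h
    rw [div_lt_iff₀ (by linarith)]
    nlinarith

lemma V_center {f : E3 → ℝ} (hf : Adm DD f) (h1 : ∀ᵐ y, y ∈ DD → f y = 1) : lev < V f 0 := by
  have h2 : Nn (9/10) 0 ≤ V f 0 := by
    have e : Nn (9/10) 0 = ∫ y, (Metric.ball (0:E3) (9/10)).indicator (fun y => (dist (0:E3) y)⁻¹) y := by
      rw [integral_indicator Metric.isOpen_ball.measurableSet, ball_pot (by norm_num), dist_self]
    rw [e]
    unfold V
    apply integral_mono_ae
    · exact (integrable_indicator_iff Metric.isOpen_ball.measurableSet).2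
        (kern_int (by norm_num) 0 0)
    · exact (hf.good DD_ball).int_kern one_pos 0
    · filter_upwards [h1] with y hy
      by_cases hyb : y ∈ Metric.ball (0:E3) (9/10)
      · rw [indicator_of_mem hyb, hy (ball_sub_DD hyb), one_mul]
      · rw [indicator_of_notMem hyb]
        exact mul_nonneg (hf.nonneg y) (inv_nonneg.2 dist_nonneg)
  refine lt_of_lt_of_le ?_ h2
  have hpi := Real.pi_pos
  unfold Nn lev
  rw [if_pos (by norm_num)]
  nlinarith

/-- points with nonzero coordinates -/
def gen : Set E3 := {x | ∀ i, x i ≠ 0}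

lemma gen_null : volume (genᶜ) = 0 := by
  have h : genᶜ = ⋃ i : Fin 3, {x : E3 | x i = 0} := by
    ext x
    simp [gen]
  rw [h, measure_iUnion_null_iff]
  intro i
  have h1 : {x : E3 | x i = 0} = ((EuclideanSpace.proj (𝕜 := ℝ) i : E3 →L[ℝ] ℝ).ker : Set E3) := by
    ext x
    simp
  rw [h1]
  apply Measure.addHaar_submodule
  intro hc
  have h2 : EuclideanSpace.single i (1:ℝ) ∈ (EuclideanSpace.proj (𝕜 := ℝ) i : E3 →L[ℝ] ℝ).ker := by
    rw [hc]; trivial
  simp at h2

lemma meets_gen {A : Set E3} (hA : volume A ≠ 0) : (A ∩ gen).Nonempty := by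
  by_contra hc
  rw [not_nonempty_iff_eq_empty, ← disjoint_iff_inter_eq_empty, ← subset_compl_iff_disjoint_right]
    at hc
  exact hA (measure_mono_null hc gen_null)

section contact

variable {f : E3 → ℝ}

/-- the contact set -/
noncomputable def KK (f : E3 → ℝ) : Set E3 := {x | lev ≤ V f x}

lemma KK_closed (hf : EL DD lev f) : IsClosed (KK f) :=
  isClosed_le continuous_const ((hf.adm.good DD_ball).V_cont one_pos)

lemma KK_sub (hf : EL DD lev f) : KK f ⊆ DD := by
  intro x hx
  by_contra hc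
  have := V_outside hf.adm hc
  have h2 : lev ≤ V f x := hx
  linarith

lemma KK_UL (hf : EL DD lev f) : UL (KK f) := by
  intro x hx y h
  exact le_trans (show lev ≤ V f x from hx) (mono one_pos DD_ball DD_UL hf x y h)

lemma KK_pos (hf : EL DD lev f) : volume (KK f) ≠ 0 := by
  intro h0
  have h1 : ∀ᵐ y, y ∈ DD → f y = 1 := by
    have h2 : ∀ᵐ y, y ∉ KK f := measure_eq_zero_iff_ae_notMem.1 h0
    filter_upwards [h2, hf.one] with y hy1 hy2 hyD
    exact hy2 hyD (not_le.1 hy1)
  have h3 := V_center hf.adm h1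
  have h4 := hf.le 0
  linarith

lemma box_sub (hf : EL DD lev f) {x : E3} (hx : x ∈ KK f) {z : E3} (hz : ∀ i, |z i| < |x i|) :
    z ∈ interior (KK f) := by
  have hopen : IsOpen {z : E3 | ∀ i, |z i| < |x i|} := by
    have : {z : E3 | ∀ i, |z i| < |x i|} = ⋂ i, {z : E3 | |z i| < |x i|} := by ext; simp
    rw [this]
    exact isOpen_iInter_of_finite fun i => isOpen_lt (by fun_prop) continuous_const
  exact interior_maximal (fun w hw => KK_UL hf x hx w fun i => (hw i).le) hopen hz

/-- the cavity -/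
noncomputable def TT (f : E3 → ℝ) : Set E3 := interior (KK f)

lemma TT_zero (hf : EL DD lev f) : (0:E3) ∈ TT f := by
  obtain ⟨x, hx, hg⟩ := meets_gen (KK_pos hf)
  exact box_sub hf hx fun i => by simpa using hg i

lemma TT_cl (hf : EL DD lev f) : closure (TT f) ⊆ KK f :=
  closure_minimal interior_subset (KK_closed hf)

lemma TT_star (hf : EL DD lev f) : ∀ x ∈ closure (TT f), ∀ t : ℝ, 0 ≤ t → t < 1 → t • x ∈ TT f := by
  intro x hx t h0 h1
  have hO : IsOpen {z : E3 | ∀ i, x i = 0 ∨ t * |x i| < |z i|} := by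
    have : {z : E3 | ∀ i, x i = 0 ∨ t * |x i| < |z i|} =
        ⋂ i, {z : E3 | x i = 0 ∨ t * |x i| < |z i|} := by ext; simp
    rw [this]
    refine isOpen_iInter_of_finite fun i => ?_
    by_cases h : x i = 0
    · simp [h]
    · simp only [h, false_or]
      exact isOpen_lt continuous_const (by fun_prop)
  have hxO : x ∈ {z : E3 | ∀ i, x i = 0 ∨ t * |x i| < |z i|} := by
    intro i
    by_cases h : x i = 0
    · exact Or.inl h
    · right
      have := abs_pos.2 h
      nlinarith
  have hne : ({z : E3 | ∀ i, x i = 0 ∨ t * |x i| < |z i|} ∩ TT f).Nonempty :=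
    mem_closure_iff.1 hx _ hO hxO
  obtain ⟨y, ⟨hy1, hy2⟩, hyg⟩ := meets_gen ((hO.inter isOpen_interior).measure_pos volume hne).ne'
  refine box_sub hf (interior_subset hy2) fun i => ?_
  have e : (t • x) i = t * x i := by simp
  rw [e, abs_mul, abs_of_nonneg h0]
  rcases hy1 i with h | h
  · rw [h]; simpa using hyg i
  · exact h

lemma KK_diff (hf : EL DD lev f) : volume (KK f \ closure (TT f)) = 0 := by
  refine measure_mono_null ?_ gen_null
  rintro x ⟨hx, hxn⟩ hxg
  apply hxn
  have h1 : Tendsto (fun t : ℝ => t • x) (𝓝[<] 1) (𝓝 x) := by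
    have : Tendsto (fun t : ℝ => t • x) (𝓝 1) (𝓝 ((1:ℝ) • x)) :=
      Continuous.tendsto (by fun_prop) 1
    rw [one_smul] at this
    exact this.mono_left nhdsWithin_le_nhds
  refine mem_closure_of_tendsto h1 ?_
  filter_upwards [Ioo_mem_nhdsLT (zero_lt_one (α := ℝ))] with t ht
  refine box_sub hf hx fun i => ?_
  have e : (t • x) i = t * x i := by simp
  rw [e, abs_mul, abs_of_pos ht.1]
  have := abs_pos.2 (hxg i)
  nlinarith [ht.2]

lemma TT_bdd (hf : EL DD lev f) : Bornology.IsBounded (TT f) :=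
  Metric.isBounded_ball.subset ((interior_subset.trans (KK_sub hf)).trans DD_ball)

lemma fr_null (hf : EL DD lev f) : volume (closure (TT f) \ TT f) = 0 := by
  have hfin : volume (TT f) ≠ ∞ := (TT_bdd hf).measure_lt_top.ne
  have hfin2 : volume (closure (TT f)) ≠ ∞ := (TT_bdd hf).closure.measure_lt_top.ne
  have h1 : ∀ t : ℝ, 0 ≤ t → t < 1 →
      ENNReal.ofReal (t ^ 3) * volume (closure (TT f)) ≤ volume (TT f) := by
    intro t h0 h1
    have h2 : t • closure (TT f) ⊆ TT f := by
      rintro _ ⟨x, hx, rfl⟩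
      exact TT_star hf x hx t h0 h1
    have h3 := measure_mono (μ := volume) h2
    rw [Measure.addHaar_smul] at h3
    have h4 : Module.finrank ℝ E3 = 3 := by simp
    rw [h4, abs_of_nonneg (by positivity)] at h3
    exact h3
  have h2 : volume (closure (TT f)) ≤ volume (TT f) := by
    have h3 : Tendsto (fun t : ℝ => ENNReal.ofReal (t ^ 3) * volume (closure (TT f))) (𝓝[<] 1)
        (𝓝 (ENNReal.ofReal (1 ^ 3) * volume (closure (TT f)))) := by
      apply ENNReal.Tendsto.mul_const _ (Or.inr hfin2)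
      apply ENNReal.tendsto_ofReal
      exact (Continuous.tendsto (by fun_prop) 1).mono_left nhdsWithin_le_nhds
    rw [one_pow, ENNReal.ofReal_one, one_mul] at h3
    refine le_of_tendsto h3 ?_
    filter_upwards [Ioo_mem_nhdsLT (zero_lt_one (α := ℝ))] with t ht
    exact h1 t ht.1.le ht.2
  have hTo : IsOpen (TT f) := isOpen_interior
  rw [measure_sdiff subset_closure hTo.nullMeasurableSet hfin]
  exact tsub_eq_zero_of_le h2

lemma f_zero (hf : EL DD lev f) : ∀ᵐ y, y ∈ TT f → f y = 0 := by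
  have hg := hf.adm.good DD_ball
  rw [ae_iff]
  apply measure_null_of_locally_null
  intro x hx
  have hx1 : x ∈ TT f := by
    by_contra hc
    exact hx (fun h => absurd h hc)
  obtain ⟨r, hr, hball⟩ := Metric.isOpen_iff.1 (isOpen_interior : IsOpen (TT f)) x hx1
  refine ⟨{y | ¬ (y ∈ TT f → f y = 0)} ∩ Metric.ball x r,
    inter_mem_nhdsWithin _ (Metric.ball_mem_nhds x hr), ?_⟩
  have hconst : ∀ z ∈ Metric.ball x r, V f z = lev := fun z hz =>
    le_antisymm (hf.le z) (show z ∈ KK f from interior_subset (hball hz))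
  have hmd := hg.mean_diff one_pos hr x
  have h1 : ∫ z in Metric.ball x r, V f z = lev * vb r := by
    rw [setIntegral_congr_fun Metric.isOpen_ball.measurableSet hconst, setIntegral_const,
      Measure.real, vol_ball hr, ENNReal.toReal_ofReal (vb_pos hr).le, smul_eq_mul, mul_comm]
  rw [h1, hconst x (Metric.mem_ball_self hr), mul_div_assoc, div_self (vb_pos hr).ne', mul_one,
    sub_self] at hmd
  have hne : ∀ᵐ y : E3, y ≠ x := by simp [ae_iff]
  have h2 : 0 ≤ᵐ[volume] fun y => f y * kr r (dist x y) := by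
    filter_upwards [hne] with y hyx
    exact mul_nonneg (hf.adm.nonneg y) (kr_nonneg hr (dist_pos.2 hyx.symm))
  have hint : Integrable (fun y => f y * kr r (dist x y)) := by
    unfold kr
    have i1 := hg.int_kern one_pos x
    have hm : Measurable fun y : E3 => Nn r (dist x y) := by
      unfold Nn
      apply Measurable.ite (measurableSet_lt (by fun_prop) (by fun_prop)) <;> fun_prop
    have i2 : Integrable (fun y => f y * (Nn r (dist x y) / vb r)) := by
      refine ((hg.integrable one_pos).abs.mul_const (2 * Real.pi * r ^ 2 / vb r)).mono'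
        (by have := hf.adm.meas; fun_prop) (ae_of_all _ fun y => ?_)
      rw [Real.norm_eq_abs, abs_mul, abs_div, abs_of_pos (vb_pos hr),
        abs_of_nonneg (Nn_nonneg hr dist_nonneg)]
      have := vb_pos hr
      gcongr
      exact Nn_le hr dist_nonneg
    refine (i1.sub i2).congr (ae_of_all _ fun y => ?_)
    show f y * (dist x y)⁻¹ - f y * (Nn r (dist x y) / vb r) = _
    ring
  have h3 := (integral_eq_zero_iff_of_nonneg_ae h2 hint).1 hmd.symm
  have h4 : ∀ᵐ y, ¬ (y ∈ {y | ¬ (y ∈ TT f → f y = 0)} ∩ Metric.ball x r) := by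
    filter_upwards [h3, hne] with y hy hyx hc
    have h5 : f y * kr r (dist x y) = 0 := hy
    have h6 : f y ≠ 0 := by
      intro h0
      exact hc.1 (fun _ => h0)
    rcases mul_eq_zero.1 h5 with h | h
    · exact h6 h
    · have h7 : dist x y < r := by rw [dist_comm]; exact hc.2
      exact (kr_pos (dist_pos.2 hyx.symm) h7).ne' h
  exact measure_eq_zero_iff_ae_notMem.2 h4

/-- the potential of the shell is constant in the cavity -/
theorem pot_const (hf : EL DD lev f) : ∀ P ∈ TT f,
    ∫ M in DD \ closure (TT f), (dist P M)⁻¹ = lev := by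
  intro P hP
  have h1 : V f P = lev := le_antisymm (hf.le P) (show P ∈ KK f from interior_subset hP)
  rw [← h1]
  unfold V
  have hm : MeasurableSet (DD \ closure (TT f)) := DD_open.measurableSet.diff measurableSet_closure
  rw [← integral_indicator hm]
  apply integral_congr_ae
  have h2 : ∀ᵐ y, y ∉ KK f \ closure (TT f) := measure_eq_zero_iff_ae_notMem.1 (KK_diff hf)
  have h3 : ∀ᵐ y, y ∉ closure (TT f) \ TT f := measure_eq_zero_iff_ae_notMem.1 (fr_null hf)
  filter_upwards [h2, h3, f_zero hf, hf.one] with y a1 a2 a3 a4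
  by_cases hy : y ∈ DD \ closure (TT f)
  · rw [indicator_of_mem hy]
    have h5 : y ∉ KK f := fun hc => a1 ⟨hc, hy.2⟩
    rw [a4 hy.1 (not_le.1 h5), one_mul]
  · rw [indicator_of_notMem hy]
    have h6 : f y = 0 := by
      by_cases hyc : y ∈ closure (TT f)
      · by_cases hyT : y ∈ TT f
        · exact a3 hyT
        · exact absurd ⟨hyc, hyT⟩ a2
      · have hyD : y ∉ DD := fun hc => hy ⟨hc, hyc⟩
        have := hf.adm.le y
        rw [indicator_of_notMem hyD] at this
        exact le_antisymm this (hf.adm.nonneg y)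
    rw [h6, zero_mul]

end contact

end Pool.Agent.T9h72.HS
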