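import Pool.Agent.H283R3.Newt3

/-! The energy bilinear form of bounded densities. -/

open MeasureTheory Set Filter Topology
open scoped ENNReal

namespace Pool.Agent.T9h72.HS

open Pool.Agent.H283R3.Newt

lemma V_add {R : ℝ} (hR : 0 < R) {f g : E3 → ℝ} (hf : Good R f) (hg : Good R g) (a b : ℝ) (x : E3) :
    V (fun y => a * f y + b * g y) x = a * V f x + b * V g x := by
  unfold V
  rw [← integral_const_mul, ← integral_const_mul, ← integral_add]
  · congr 1; ext y; ring
  · exact (hf.int_kern hR x).const_mul _
  · exact (hg.int_kern hR x).const_mul _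

lemma V_bdd {R : ℝ} (hR : 0 < R) {f : E3 → ℝ} (hf : Good R f) (x : E3) :
    |V f x| ≤ 2 * Real.pi * R ^ 2 :=
  (hf.V_abs_le hR x).trans (Nn_le hR (norm_nonneg _))

lemma int_mul_V {R : ℝ} (hR : 0 < R) {f g : E3 → ℝ} (hf : Good R f) (hg : Good R g) :
    Integrable (fun x => g x * V f x) := by
  refine ((hg.integrable hR).abs.mul_const (2 * Real.pi * R ^ 2)).mono'
    (by have := hg.meas; have := (hf.V_cont hR).measurable; fun_prop) (ae_of_all _ fun y => ?_)
  rw [Real.norm_eq_abs, abs_mul]
  gcongr
  exact V_bdd hR hf y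

/-- symmetry of the energy form -/
lemma V_symm {R : ℝ} (hR : 0 < R) {f g : E3 → ℝ} (hf : Good R f) (hg : Good R g) :
    ∫ x, g x * V f x = ∫ x, f x * V g x := by
  unfold V
  simp_rw [← integral_const_mul]
  rw [integral_integral_swap]
  · congr 1
    ext y
    congr 1
    ext x
    rw [dist_comm]; ring
  · have hfm := hf.meas
    have hgm := hg.meas
    have hmeas : Measurable (Function.uncurry fun (x y : E3) => g x * (f y * (dist x y)⁻¹)) := by
      unfold Function.uncurry
      fun_prop
    rw [integrable_prod_iff hmeas.aestronglyMeasurable]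
    constructor
    · refine ae_of_all _ fun x => ?_
      show Integrable (fun y => g x * (f y * (dist x y)⁻¹))
      exact (hf.int_kern hR x).const_mul _
    · have hb : Good R (fun y => |f y|) := ⟨by fun_prop, fun y => by rw [abs_abs]; exact hf.bd y⟩
      have h1 : ∀ x : E3, ∫ y, ‖g x * (f y * (dist x y)⁻¹)‖ = |g x| * V (fun y => |f y|) x := by
        intro x
        unfold V
        rw [← integral_const_mul]
        congr 1
        ext y
        rw [Real.norm_eq_abs, abs_mul, abs_mul,
          abs_of_nonneg (inv_nonneg.2 dist_nonneg : 0 ≤ (dist x y)⁻¹)]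
      show Integrable (fun x => ∫ y, ‖g x * (f y * (dist x y)⁻¹)‖)
      simp_rw [h1]
      have hgb : Good R (fun y => |g y|) := ⟨by fun_prop, fun y => by rw [abs_abs]; exact hg.bd y⟩
      exact int_mul_V hR hb hgb

/-- the energy functional -/
noncomputable def J (m : ℝ) (f : E3 → ℝ) : ℝ := ∫ x, f x * (V f x / 2 - m)

lemma J_int {R : ℝ} (hR : 0 < R) {f g : E3 → ℝ} (hf : Good R f) (hg : Good R g) (a m : ℝ) :
    Integrable (fun x => g x * (V f x * a - m)) := by
  have h1 := (int_mul_V hR hf hg).mul_const a
  have h2 := (hg.integrable hR).mul_const m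
  refine (h1.sub h2).congr (ae_of_all _ fun x => ?_)
  show g x * V f x * a - g x * m = _
  ring

/-- expansion of the energy along a segment -/
lemma J_expand {R : ℝ} (hR : 0 < R) {f g : E3 → ℝ} (hf : Good R f) (hg : Good R g) (m t : ℝ) :
    J m (fun y => (1 - t) * f y + t * g y) =
      J m f + t * (∫ x, (g x - f x) * (V f x - m))
        + t ^ 2 / 2 * (∫ x, (g x - f x) * (V g x - V f x)) := by
  unfold J
  have hV : ∀ x, V (fun y => (1 - t) * f y + t * g y) x = (1 - t) * V f x + t * V g x :=
    fun x => V_add hR hf hg _ _ x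
  simp_rw [hV]
  have i1 := int_mul_V hR hf hf
  have i2 := int_mul_V hR hf hg
  have i3 := int_mul_V hR hg hf
  have i4 := int_mul_V hR hg hg
  have i5 := hf.integrable hR
  have i6 := hg.integrable hR
  have hs := V_symm hR hf hg
  have e1 : ∫ x, ((1 - t) * f x + t * g x) * (((1 - t) * V f x + t * V g x) / 2 - m) =
      (1 - t) ^ 2 / 2 * (∫ x, f x * V f x) + (1 - t) * t / 2 * (∫ x, f x * V g x)
      + (1 - t) * t / 2 * (∫ x, g x * V f x) + t ^ 2 / 2 * (∫ x, g x * V g x)
      - m * (1 - t) * (∫ x, f x) - m * t * (∫ x, g x) := by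
    rw [← integral_const_mul, ← integral_const_mul, ← integral_const_mul, ← integral_const_mul,
      ← integral_const_mul, ← integral_const_mul, ← integral_add, ← integral_add, ← integral_add,
      ← integral_sub, ← integral_sub]
    · congr 1; ext x; ring
    all_goals fun_prop
  have e2 : ∫ x, f x * (V f x / 2 - m) = 1 / 2 * (∫ x, f x * V f x) - m * (∫ x, f x) := by
    rw [← integral_const_mul, ← integral_const_mul, ← integral_sub]
    · congr 1; ext x; ring
    all_goals fun_prop
  have e3 : ∫ x, (g x - f x) * (V f x - m) = (∫ x, g x * V f x) - (∫ x, f x * V f x)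
      - m * (∫ x, g x) + m * (∫ x, f x) := by
    rw [← integral_const_mul, ← integral_const_mul, ← integral_sub, ← integral_sub, ← integral_add]
    · congr 1; ext x; ring
    all_goals fun_prop
  have e4 : ∫ x, (g x - f x) * (V g x - V f x) = (∫ x, g x * V g x) - (∫ x, g x * V f x)
      - (∫ x, f x * V g x) + (∫ x, f x * V f x) := by
    rw [← integral_sub, ← integral_sub, ← integral_add]
    · congr 1; ext x; ring
    all_goals fun_prop
  rw [e1, e2, e3, e4, hs]
  ring

end Pool.Agent.T9h72.HS
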