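import Pool.Agent.H283R3.Newt3

/-! Maximum principle for Newtonian potentials of bounded densities. -/

open MeasureTheory Set Filter Topology
open scoped ENNReal

namespace Pool.Agent.T9h72.HS

open Pool.Agent.H283R3.Newt

theorem max_principle {R : ℝ} (hR : 0 < R) {τ : E3 → ℝ} (h : Good R τ) {H : Set E3}
    (hH : IsOpen H) {ℓ : ℝ} (hℓ : 0 ≤ ℓ) (hfr : ∀ x ∈ frontier H, V τ x ≤ ℓ)
    (hneg : ∀ᵐ y, y ∈ H → ℓ < V τ y → τ y ≤ 0) : ∀ x ∈ H, V τ x ≤ ℓ := by
  by_contra hcon
  push Not at hcon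
  obtain ⟨x₁, hx₁, hx₁'⟩ := hcon
  have hpos : 0 < V τ x₁ := lt_of_le_of_lt hℓ hx₁'
  have hcomp : IsCompact (closure H ∩ {x | V τ x₁ ≤ V τ x}) :=
    (h.compact_ge hR hpos).inter_left isClosed_closure
  obtain ⟨x₂, hx₂, hmax⟩ := hcomp.exists_isMaxOn
    ⟨x₁, subset_closure hx₁, le_refl (V τ x₁)⟩ (h.V_cont hR).continuousOn
  obtain ⟨M, hMdef⟩ : ∃ M, M = V τ x₂ := ⟨_, rfl⟩
  have hM : V τ x₁ ≤ M := hMdef ▸ hx₂.2
  have hmaxH : ∀ x ∈ closure H, V τ x ≤ M := by
    intro x hx
    by_cases hc : V τ x₁ ≤ V τ x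
    · rw [hMdef]; exact hmax ⟨hx, hc⟩
    · exact (not_le.1 hc).le.trans hM
  have hMl : ℓ < M := hx₁'.trans_le hM
  have hS : IsCompact (closure H ∩ {x | M ≤ V τ x}) :=
    (h.compact_ge hR (hpos.trans_le hM)).inter_left isClosed_closure
  obtain ⟨x₀, hx₀, hx₀max⟩ := hS.exists_isMaxOn (f := fun x : E3 => x 0)
    ⟨x₂, hx₂.1, by show M ≤ _; rw [hMdef]⟩ (by fun_prop)
  have hVx₀ : V τ x₀ = M := le_antisymm (hmaxH _ hx₀.1) hx₀.2
  have hx₀H : x₀ ∈ H := by
    by_contra hc
    have h1 : x₀ ∈ frontier H := by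
      rw [hH.frontier_eq]; exact ⟨hx₀.1, hc⟩
    have := hfr _ h1
    rw [hVx₀] at this
    linarith
  have hopen : IsOpen (H ∩ {x | ℓ < V τ x}) := hH.inter (isOpen_lt continuous_const (h.V_cont hR))
  obtain ⟨r, hr, hball⟩ := Metric.isOpen_iff.1 hopen x₀ ⟨hx₀H, by show ℓ < _; rw [hVx₀]; exact hMl⟩
  have hmd := h.mean_diff hR hr x₀
  have hne : ∀ᵐ y : E3, y ≠ x₀ := by simp [ae_iff]
  have hle : ∫ y, τ y * kr r (dist x₀ y) ≤ 0 := by
    apply integral_nonpos_of_ae
    filter_upwards [hneg, hne] with y hy hyx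
    have hd0 : 0 < dist x₀ y := dist_pos.2 hyx.symm
    show τ y * kr r (dist x₀ y) ≤ 0
    rcases lt_or_ge (dist x₀ y) r with hlt | hge
    · have hyb : y ∈ Metric.ball x₀ r := by rw [Metric.mem_ball, dist_comm]; exact hlt
      have h2 := hball hyb
      exact mul_nonpos_of_nonpos_of_nonneg (hy h2.1 h2.2) (kr_nonneg hr hd0)
    · rw [kr_zero hr hge, mul_zero]
  rw [← hmd, hVx₀] at hle
  have hvb := vb_pos hr
  have hint : M * vb r ≤ ∫ z in Metric.ball x₀ r, V τ z := by
    have : M ≤ (∫ z in Metric.ball x₀ r, V τ z) / vb r := by linarith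
    rwa [le_div_iff₀ hvb] at this
  haveI : IsFiniteMeasure (volume.restrict (Metric.ball x₀ r)) :=
    ⟨by rw [Measure.restrict_apply_univ]; exact measure_ball_lt_top⟩
  have hVint : IntegrableOn (V τ) (Metric.ball x₀ r) :=
    ((h.V_cont hR).continuousOn.integrableOn_compact (isCompact_closedBall x₀ r)).mono_set
      Metric.ball_subset_closedBall
  have hconst : ∫ z in Metric.ball x₀ r, M = M * vb r := by
    rw [setIntegral_const, Measure.real, vol_ball hr, ENNReal.toReal_ofReal hvb.le, smul_eq_mul,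
      mul_comm]
  have hzero : ∫ z in Metric.ball x₀ r, (M - V τ z) = 0 := by
    apply le_antisymm
    · rw [integral_sub (integrable_const M) hVint, hconst]
      linarith
    · apply setIntegral_nonneg Metric.isOpen_ball.measurableSet
      intro z hz
      have := hmaxH z (subset_closure (hball hz).1)
      linarith
  have hae : (fun z => M - V τ z) =ᵐ[volume.restrict (Metric.ball x₀ r)] 0 := by
    rwa [setIntegral_eq_zero_iff_of_nonneg_ae] at hzero
    · filter_upwards [ae_restrict_mem Metric.isOpen_ball.measurableSet] with z hz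
      have := hmaxH z (subset_closure (hball hz).1)
      show (0 : ℝ) ≤ M - V τ z
      linarith
    · exact (integrable_const M).sub hVint
  have heq := Measure.eqOn_open_of_ae_eq hae Metric.isOpen_ball
    (continuous_const.sub (h.V_cont hR)).continuousOn continuousOn_const
  -- the point further out
  set p : E3 := x₀ + EuclideanSpace.single 0 (r / 2) with hp
  have hpb : p ∈ Metric.ball x₀ r := by
    rw [Metric.mem_ball, dist_eq_norm, hp, add_sub_cancel_left, EuclideanSpace.norm_single,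
      Real.norm_eq_abs, abs_of_pos (by positivity)]
    linarith
  have hpe := heq hpb
  have hpS : p ∈ closure H ∩ {x | M ≤ V τ x} := by
    refine ⟨subset_closure (hball hpb).1, ?_⟩
    show M ≤ V τ p
    have : M - V τ p = 0 := hpe
    linarith
  have hlast := hx₀max hpS
  have h3 : p 0 = x₀ 0 + r / 2 := by rw [hp]; simp
  have h4 : p 0 ≤ x₀ 0 := hlast
  linarith

end Pool.Agent.T9h72.HS
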