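import Pool.Agent.T9h72.HS.Min
import Pool.Agent.T9h72.HS.MaxP

/-! Euler-Lagrange conditions of the minimiser, and the bound `V f ≤ m`. -/

open MeasureTheory Set Filter Topology
open scoped ENNReal InnerProductSpace

namespace Pool.Agent.T9h72.HS

open Pool.Agent.H283R3.Newt

lemma Adm.comb {D : Set E3} {f g : E3 → ℝ} (hf : Adm D f) (hg : Adm D g) {t : ℝ} (h0 : 0 ≤ t)
    (h1 : t ≤ 1) : Adm D (fun y => (1 - t) * f y + t * g y) := by
  refine ⟨by have := hf.meas; have := hg.meas; fun_prop, fun y => ?_, fun y => ?_⟩
  · have := hf.nonneg y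
    have := hg.nonneg y
    have : 0 ≤ 1 - t := by linarith
    positivity
  · have h2 := hf.le y
    have h3 := hg.le y
    nlinarith

theorem exists_EL {R : ℝ} (hR : 0 < R) {D : Set E3} (hDm : MeasurableSet D)
    (hD : D ⊆ Metric.ball 0 R) (m : ℝ) :
    ∃ f, Adm D f ∧ (∀ᵐ y, y ∈ D → V f y < m → f y = 1) ∧ (∀ᵐ y, m < V f y → f y = 0) := by
  obtain ⟨f, hf, hmin⟩ := exists_min hR hDm hD m
  have hfg := hf.good hD
  have hVf : Measurable (V f) := (hfg.V_cont hR).measurable
  have hvar : ∀ g, Adm D g → 0 ≤ ∫ x, (g x - f x) * (V f x - m) := by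
    intro g hg
    have hgg := hg.good hD
    set A := ∫ x, (g x - f x) * (V f x - m) with hA
    set B := ∫ x, (g x - f x) * (V g x - V f x) with hB
    have h1 : ∀ t : ℝ, 0 < t → t ≤ 1 → 0 ≤ A + t / 2 * B := by
      intro t h0 h1
      have h2 := hmin _ (hf.comb hg h0.le h1)
      rw [J_expand hR hfg hgg] at h2
      have h3 : 0 ≤ t * (A + t / 2 * B) := by
        have : t * (A + t / 2 * B) = t * A + t ^ 2 / 2 * B := by ring
        rw [this]; linarith
      exact nonneg_of_mul_nonneg_right h3 h0
    have h2 : Tendsto (fun t : ℝ => A + t / 2 * B) (𝓝[>] 0) (𝓝 A) := by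
      have h3 : Tendsto (fun t : ℝ => A + t / 2 * B) (𝓝 0) (𝓝 (A + 0 / 2 * B)) :=
        Continuous.tendsto (by fun_prop) 0
      rw [zero_div, zero_mul, add_zero] at h3
      exact h3.mono_left nhdsWithin_le_nhds
    refine ge_of_tendsto h2 ?_
    filter_upwards [Ioc_mem_nhdsGT (zero_lt_one (α := ℝ))] with t ht
    exact h1 t ht.1 ht.2
  refine ⟨f, hf, ?_, ?_⟩
  · -- lower set
    set A : Set E3 := D ∩ {x | V f x < m} with hA
    have hAm : MeasurableSet A := hDm.inter (measurableSet_lt hVf measurable_const)
    have hg : Adm D (fun x => A.indicator 1 x + Aᶜ.indicator f x) := by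
      refine ⟨(measurable_one.indicator hAm).add (hf.meas.indicator hAm.compl), fun y => ?_,
        fun y => ?_⟩
      · have h1 := hf.nonneg y
        by_cases hy : y ∈ A
        · simp [hy]
        · simp [hy, h1]
      · by_cases hy : y ∈ A
        · simp [hy, hy.1]
        · simp only [indicator_of_notMem hy, zero_add, indicator_of_mem (mem_compl hy)]
          exact hf.le y
    have h1 := hvar _ hg
    have h2 : ∀ x, ((A.indicator 1 x + Aᶜ.indicator f x) - f x) * (V f x - m) =
        -(A.indicator (fun x => (1 - f x) * (m - V f x)) x) := by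
      intro x
      by_cases hx : x ∈ A
      · simp only [indicator_of_mem hx, indicator_of_notMem (notMem_compl_iff.2 hx), Pi.one_apply]
        ring
      · simp only [indicator_of_notMem hx, indicator_of_mem (mem_compl hx)]
        ring
    simp_rw [h2] at h1
    rw [integral_neg] at h1
    have h3 : ∀ x, 0 ≤ A.indicator (fun x => (1 - f x) * (m - V f x)) x := by
      intro x
      apply indicator_nonneg
      intro y hy
      have h4 : V f y < m := hy.2
      have h5 := hfg.abs_le_one y
      have h6 := le_abs_self (f y)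
      apply mul_nonneg <;> linarith
    have h4 : ∫ x, A.indicator (fun x => (1 - f x) * (m - V f x)) x = 0 :=
      le_antisymm (by linarith) (integral_nonneg h3)
    have hint : Integrable (fun x => A.indicator (fun x => (1 - f x) * (m - V f x)) x) := by
      have i1 := J_int hR hfg (hg.good hD) 1 m
      have i2 := J_int hR hfg hfg 1 m
      refine ((i1.sub i2).neg).congr (ae_of_all _ fun x => ?_)
      have h7 := h2 x
      show -((A.indicator 1 x + Aᶜ.indicator f x) * (V f x * 1 - m) - f x * (V f x * 1 - m)) = _
      rw [mul_one, ← sub_mul, h7, neg_neg]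
    rw [integral_eq_zero_iff_of_nonneg h3 hint] at h4
    filter_upwards [h4] with y hy hyD hyV
    have hyA : y ∈ A := ⟨hyD, hyV⟩
    rw [indicator_of_mem hyA] at hy
    have h5 : (1 - f y) * (m - V f y) = 0 := hy
    rcases mul_eq_zero.1 h5 with h | h
    · linarith
    · linarith
  · set A : Set E3 := {x | m < V f x} with hA
    have hAm : MeasurableSet A := measurableSet_lt measurable_const hVf
    have hg : Adm D (fun x => Aᶜ.indicator f x) := by
      refine ⟨hf.meas.indicator hAm.compl, fun y => ?_, fun y => ?_⟩
      · exact indicator_nonneg (fun _ _ => hf.nonneg _) y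
      · by_cases hy : y ∈ A
        · rw [indicator_of_notMem (notMem_compl_iff.2 hy)]
          exact indicator_nonneg (fun _ _ => zero_le_one) y
        · rw [indicator_of_mem (mem_compl hy)]
          exact hf.le y
    have h1 := hvar _ hg
    have h2 : ∀ x, (Aᶜ.indicator f x - f x) * (V f x - m) =
        -(A.indicator (fun x => f x * (V f x - m)) x) := by
      intro x
      by_cases hx : x ∈ A
      · simp only [indicator_of_mem hx, indicator_of_notMem (notMem_compl_iff.2 hx)]
        ring
      · simp only [indicator_of_notMem hx, indicator_of_mem (mem_compl hx)]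
        ring
    simp_rw [h2] at h1
    rw [integral_neg] at h1
    have h3 : ∀ x, 0 ≤ A.indicator (fun x => f x * (V f x - m)) x := by
      intro x
      apply indicator_nonneg
      intro y hy
      have h4 : m < V f y := hy
      exact mul_nonneg (hf.nonneg y) (by linarith)
    have h4 : ∫ x, A.indicator (fun x => f x * (V f x - m)) x = 0 :=
      le_antisymm (by linarith) (integral_nonneg h3)
    have hint : Integrable (fun x => A.indicator (fun x => f x * (V f x - m)) x) := by
      have i1 := J_int hR hfg (hg.good hD) 1 m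
      have i2 := J_int hR hfg hfg 1 m
      refine ((i1.sub i2).neg).congr (ae_of_all _ fun x => ?_)
      have h7 := h2 x
      show -(Aᶜ.indicator f x * (V f x * 1 - m) - f x * (V f x * 1 - m)) = _
      rw [mul_one, ← sub_mul, h7, neg_neg]
    rw [integral_eq_zero_iff_of_nonneg h3 hint] at h4
    filter_upwards [h4] with y hy hyV
    have hyA : y ∈ A := hyV
    rw [indicator_of_mem hyA] at hy
    have h5 : f y * (V f y - m) = 0 := hy
    rcases mul_eq_zero.1 h5 with h | h
    · exact h
    · linarith

/-- the potential of the minimiser does not exceed the level -/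
theorem EL_le {R : ℝ} (hR : 0 < R) {D : Set E3} (hD : D ⊆ Metric.ball 0 R) {m : ℝ} (hm : 0 ≤ m)
    {f : E3 → ℝ} (hf : Adm D f) (h2 : ∀ᵐ y, m < V f y → f y = 0) (x : E3) : V f x ≤ m := by
  apply max_principle hR (hf.good hD) isOpen_univ hm (by simp) ?_ x (mem_univ x)
  filter_upwards [h2] with y hy _ hyV
  exact (hy hyV).le

end Pool.Agent.T9h72.HS
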