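import Pool.Agent.T9h72.HS.Weak

/-! Existence of the minimiser of the energy and its Euler-Lagrange conditions. -/

open MeasureTheory Set Filter Topology
open scoped ENNReal InnerProductSpace

namespace Pool.Agent.T9h72.HS

open Pool.Agent.H283R3.Newt

lemma Adm.off {R : ℝ} {D : Set E3} (hD : D ⊆ Metric.ball 0 R) {f : E3 → ℝ} (h : Adm D f)
    (k : E3 → ℝ) : ∫ y, f y * k y ∂(mu R) = ∫ y, f y * k y := by
  apply setIntegral_eq_integral_of_forall_compl_eq_zero
  intro y hy
  rw [(h.good hD).zero hy, zero_mul]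

lemma V_tendsto {R : ℝ} (hR : 0 < R) {D : Set E3} (hD : D ⊆ Metric.ball 0 R) {F : ℕ → E3 → ℝ}
    (hF : ∀ n, Adm D (F n)) {f : E3 → ℝ} (hf : Adm D f)
    (hlim : ∀ g : E3 → ℝ, Measurable g → (∃ C, ∀ y, |g y| ≤ C) →
        Tendsto (fun n => ∫ y, F n y * g y ∂(mu R)) atTop (𝓝 (∫ y, f y * g y ∂(mu R)))) (x : E3) :
    Tendsto (fun n => V (F n) x) atTop (𝓝 (V f x)) := by
  have hVt : ∀ ε : ℝ, 0 < ε → Tendsto (fun n => Vt ε (F n) x) atTop (𝓝 (Vt ε f x)) := by
    intro ε hε
    have h1 := hlim (fun y => (max (dist x y) ε)⁻¹) (by fun_prop) ⟨ε⁻¹, fun y => by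
      rw [abs_of_nonneg (by positivity)]
      gcongr
      exact le_max_right _ _⟩
    simp_rw [(hF _).off hD, hf.off hD] at h1
    exact h1
  rw [Metric.tendsto_atTop]
  intro δ hδ
  obtain ⟨ε, hε, hεδ⟩ : ∃ ε : ℝ, 0 < ε ∧ 2 * Real.pi * ε ^ 2 < δ / 3 := by
    have hpi := Real.pi_pos
    have h2 : Tendsto (fun ε : ℝ => 2 * Real.pi * ε ^ 2) (𝓝[>] 0) (𝓝 0) := by
      have : Tendsto (fun ε : ℝ => 2 * Real.pi * ε ^ 2) (𝓝 0) (𝓝 (2 * Real.pi * 0 ^ 2)) :=
        (Continuous.tendsto (by fun_prop) 0)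
      rw [zero_pow two_ne_zero, mul_zero] at this
      exact this.mono_left nhdsWithin_le_nhds
    obtain ⟨ε, h3, h4⟩ := ((h2.eventually (gt_mem_nhds (show (0:ℝ) < δ / 3 by positivity))).and
      self_mem_nhdsWithin).exists
    exact ⟨ε, h4, h3⟩
  obtain ⟨N, hN⟩ := Metric.tendsto_atTop.1 (hVt ε hε) (δ / 3) (by positivity)
  refine ⟨N, fun n hn => ?_⟩
  have h5 := hN n hn
  have h6 := Vt_close hR ((hF n).good hD) hε x
  have h7 := Vt_close hR (hf.good hD) hε x
  rw [Real.dist_eq] at h5 ⊢
  rw [abs_lt] at h5 ⊢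
  rw [abs_le] at h6 h7
  constructor <;> linarith

theorem exists_min {R : ℝ} (hR : 0 < R) {D : Set E3} (hDm : MeasurableSet D)
    (hD : D ⊆ Metric.ball 0 R) (m : ℝ) :
    ∃ f, Adm D f ∧ ∀ g, Adm D g → J m f ≤ J m g := by
  set S : Set ℝ := {a | ∃ g, Adm D g ∧ a = J m g} with hS
  have hSne : S.Nonempty := ⟨J m 0, 0, ⟨measurable_zero, fun _ => le_refl _, fun y =>
    indicator_nonneg (fun _ _ => zero_le_one) y⟩, rfl⟩
  have hSb : BddBelow S := by
    refine ⟨-((Real.pi * R ^ 2 + |m|) * vb R), ?_⟩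
    rintro a ⟨g, hg, rfl⟩
    have hgg := hg.good hD
    unfold J
    have hb : ∀ x, -((Metric.ball (0:E3) R).indicator (fun _ => Real.pi * R ^ 2 + |m|) x) ≤
        g x * (V g x / 2 - m) := by
      intro x
      by_cases hx : x ∈ Metric.ball (0:E3) R
      · rw [indicator_of_mem hx]
        have h1 := V_bdd hR hgg x
        have h2 := hgg.abs_le_one x
        have h3 : |V g x / 2 - m| ≤ Real.pi * R ^ 2 + |m| := by
          refine (abs_sub _ _).trans ?_
          rw [abs_div, abs_two]
          linarith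
        have h4 : |g x * (V g x / 2 - m)| ≤ Real.pi * R ^ 2 + |m| := by
          rw [abs_mul]
          calc |g x| * |V g x / 2 - m| ≤ 1 * (Real.pi * R ^ 2 + |m|) := by gcongr
            _ = _ := one_mul _
        exact neg_le_of_abs_le h4
      · rw [indicator_of_notMem hx, hgg.zero hx]; simp
    have h5 : ∫ x, -((Metric.ball (0:E3) R).indicator (fun _ => Real.pi * R ^ 2 + |m|) x) =
        -((Real.pi * R ^ 2 + |m|) * vb R) := by
      rw [integral_neg, integral_indicator Metric.isOpen_ball.measurableSet, setIntegral_const,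
        Measure.real, vol_ball hR, ENNReal.toReal_ofReal (vb_pos hR).le, smul_eq_mul, mul_comm]
    rw [← h5]
    apply integral_mono
    · apply Integrable.neg
      rw [integrable_indicator_iff Metric.isOpen_ball.measurableSet]
      have : IsFiniteMeasure (volume.restrict (Metric.ball (0:E3) R)) :=
        ⟨by rw [Measure.restrict_apply_univ]; exact measure_ball_lt_top⟩
      exact integrable_const _
    · have := J_int hR hgg hgg (1/2) m
      refine this.congr (ae_of_all _ fun x => ?_)
      show g x * (V g x * (1/2) - m) = g x * (V g x / 2 - m)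
      ring
    · exact hb
  obtain ⟨u, hu1, hu2, hu3⟩ := exists_seq_tendsto_sInf hSne hSb
  choose F hFa hFJ using hu3
  obtain ⟨f, φ, hf, hφ, hlim⟩ := weak_compact hDm hD F hFa
  refine ⟨f, hf, ?_⟩
  have hfg := hf.good hD
  have hFg : ∀ n, Good R (F (φ n)) := fun n => (hFa (φ n)).good hD
  have hVlim := V_tendsto hR hD (fun n => hFa (φ n)) hf hlim
  have hVfm : Measurable (V f) := (hfg.V_cont hR).measurable
  -- limits of the three pieces
  have l1 : Tendsto (fun n => ∫ y, F (φ n) y * V f y) atTop (𝓝 (∫ y, f y * V f y)) := by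
    have := hlim (V f) hVfm ⟨_, V_bdd hR hfg⟩
    simp_rw [(hFa _).off hD, hf.off hD] at this
    exact this
  have l2 : Tendsto (fun n => ∫ y, F (φ n) y) atTop (𝓝 (∫ y, f y)) := by
    have := hlim (fun _ => 1) measurable_const ⟨1, fun _ => by simp⟩
    simp_rw [(hFa _).off hD, hf.off hD, mul_one] at this
    exact this
  have l3 : Tendsto (fun n => ∫ y, |V (F (φ n)) y - V f y| ∂(mu R)) atTop (𝓝 0) := by
    have h0 : (0:ℝ) = ∫ y : E3, (0:ℝ) ∂(mu R) := by simp
    rw [h0]
    apply tendsto_integral_of_dominated_convergence (fun _ => 4 * Real.pi * R ^ 2)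
    · intro n
      have := ((hFg n).V_cont hR).measurable
      exact (this.sub hVfm).abs.aestronglyMeasurable
    · exact integrable_const _
    · intro n
      refine ae_of_all _ fun y => ?_
      rw [Real.norm_eq_abs, abs_abs]
      refine (abs_sub _ _).trans ?_
      have h1 := V_bdd hR (hFg n) y
      have h2 := V_bdd hR hfg y
      linarith
    · refine ae_of_all _ fun y => ?_
      have h1 := ((hVlim y).sub_const (V f y)).abs
      simpa using h1
  have l4 : Tendsto (fun n => ∫ y, F (φ n) y * (V (F (φ n)) y - V f y)) atTop (𝓝 0) := by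
    rw [tendsto_zero_iff_abs_tendsto_zero]
    refine squeeze_zero (fun _ => abs_nonneg _) (fun n => ?_) l3
    show |∫ y, F (φ n) y * (V (F (φ n)) y - V f y)| ≤ _
    rw [← (hFa (φ n)).off hD]
    refine (abs_integral_le_integral_abs).trans ?_
    apply integral_mono_of_nonneg (ae_of_all _ fun _ => abs_nonneg _)
    · have h1 := ((hFg n).V_cont hR).sub (hfg.V_cont hR)
      exact (h1.abs.continuousOn.integrableOn_compact (isCompact_closedBall (0:E3) R)).mono_set
        Metric.ball_subset_closedBall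
    · refine ae_of_all _ fun y => ?_
      show |F (φ n) y * (V (F (φ n)) y - V f y)| ≤ |V (F (φ n)) y - V f y|
      rw [abs_mul]
      have := (hFg n).abs_le_one y
      nlinarith [abs_nonneg (V (F (φ n)) y - V f y)]
  have l5 : Tendsto (fun n => J m (F (φ n))) atTop (𝓝 (J m f)) := by
    have e : ∀ h : E3 → ℝ, Good R h → ∀ k : E3 → ℝ, Good R k →
        J m h = 1 / 2 * ((∫ y, h y * (V h y - V k y)) + ∫ y, h y * V k y) - m * ∫ y, h y := by
      intro h hh k hk
      have i1 := int_mul_V hR hh hh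
      have i2 := int_mul_V hR hk hh
      have i3 := hh.integrable hR
      have i4 : Integrable (fun y => h y * (V h y - V k y)) :=
        (i1.sub i2).congr (ae_of_all _ fun y => by
          show h y * V h y - h y * V k y = _
          ring)
      unfold J
      rw [← integral_add i4 i2, ← integral_const_mul, ← integral_const_mul, ← integral_sub]
      · congr 1; ext y; ring
      · exact (i4.add i2).const_mul _
      · exact i3.const_mul _
    simp_rw [fun n => e _ (hFg n) f hfg]
    rw [e f hfg f hfg]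
    have e2 : ∫ y, f y * (V f y - V f y) = 0 := by simp
    rw [e2]
    exact ((l4.add l1).const_mul _).sub (l2.const_mul _)
  have l6 : Tendsto (fun n => J m (F (φ n))) atTop (𝓝 (sInf S)) := by
    have := hu2.comp hφ.tendsto_atTop
    refine this.congr fun n => ?_
    exact hFJ (φ n)
  have hJ := tendsto_nhds_unique l5 l6
  intro g hg
  rw [hJ]
  exact csInf_le hSb ⟨g, hg, rfl⟩

end Pool.Agent.T9h72.HS
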