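import Pool.Agent.T9h72.HS.EL

/-! Reflections and the moving plane argument. -/

open MeasureTheory Set Filter Topology
open scoped ENNReal InnerProductSpace

namespace Pool.Agent.T9h72.HS

open Pool.Agent.H283R3.Newt

/-- flip of one coordinate -/
noncomputable def flipL (i : Fin 3) : E3 ≃ₗᵢ[ℝ] E3 :=
  LinearIsometryEquiv.piLpCongrRight 2
    (fun j => if j = i then LinearIsometryEquiv.neg ℝ else LinearIsometryEquiv.refl ℝ ℝ)

/-- reflection in the plane `x i = a` -/
noncomputable def rf (i : Fin 3) (a : ℝ) (x : E3) : E3 := flipL i x + EuclideanSpace.single i (2 * a)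

lemma flipL_apply (i : Fin 3) (x : E3) (j : Fin 3) : flipL i x j = if j = i then - x j else x j := by
  unfold flipL
  rw [LinearIsometryEquiv.piLpCongrRight_apply]
  simp only []
  split_ifs <;> simp

lemma rf_same (i : Fin 3) (a : ℝ) (x : E3) : rf i a x i = 2 * a - x i := by
  unfold rf
  simp [flipL_apply]
  ring

lemma rf_ne (i : Fin 3) (a : ℝ) (x : E3) {j : Fin 3} (h : j ≠ i) : rf i a x j = x j := by
  unfold rf
  simp [flipL_apply, h]

lemma rf_rf (i : Fin 3) (a : ℝ) (x : E3) : rf i a (rf i a x) = x := by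
  ext j
  by_cases h : j = i
  · subst h; rw [rf_same, rf_same]; ring
  · rw [rf_ne _ _ _ h, rf_ne _ _ _ h]

lemma rf_dist (i : Fin 3) (a : ℝ) (x y : E3) : dist (rf i a x) (rf i a y) = dist x y := by
  unfold rf
  rw [dist_add_right, LinearIsometryEquiv.dist_map]

lemma rf_dist' (i : Fin 3) (a : ℝ) (x y : E3) : dist x (rf i a y) = dist (rf i a x) y := by
  rw [← rf_dist i a x, rf_rf]

lemma rf_cont (i : Fin 3) (a : ℝ) : Continuous (rf i a) := by
  unfold rf
  exact (flipL i).continuous.add continuous_const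

lemma rf_mp (i : Fin 3) (a : ℝ) : MeasurePreserving (rf i a) volume volume :=
  (measurePreserving_add_right volume (EuclideanSpace.single i (2 * a))).comp
    (flipL i).measurePreserving

/-- the reflection as a measurable equivalence -/
noncomputable def rfE (i : Fin 3) (a : ℝ) : E3 ≃ᵐ E3 where
  toFun := rf i a
  invFun := rf i a
  left_inv := rf_rf i a
  right_inv := rf_rf i a
  measurable_toFun := (rf_cont i a).measurable
  measurable_invFun := (rf_cont i a).measurable

lemma V_rf (i : Fin 3) (a : ℝ) (f : E3 → ℝ) (x : E3) :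
    V (fun y => f (rf i a y)) x = V f (rf i a x) := by
  unfold V
  have h := (rf_mp i a).integral_comp (rfE i a).measurableEmbedding
    (fun z => f z * (dist (rf i a x) z)⁻¹)
  rw [← h]
  congr 1
  ext y
  rw [rf_dist]

/-- unconditional lower sets -/
def UL (D : Set E3) : Prop := ∀ x ∈ D, ∀ y : E3, (∀ i, |y i| ≤ |x i|) → y ∈ D

lemma UL.rf_mem {D : Set E3} (hD : UL D) {i : Fin 3} {a : ℝ} (ha : 0 ≤ a) {x : E3} (hx : x ∈ D)
    (hxa : a < x i) : rf i a x ∈ D := by
  apply hD x hx
  intro j
  by_cases h : j = i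
  · subst h
    rw [rf_same, abs_of_pos (ha.trans_lt hxa), abs_le]
    constructor <;> linarith
  · rw [rf_ne _ _ _ h]

lemma UL.rf0_mem {D : Set E3} (hD : UL D) {i : Fin 3} {x : E3} (hx : x ∈ D) :
    rf i 0 x ∈ D := by
  apply hD x hx
  intro j
  by_cases h : j = i
  · subst h
    rw [rf_same, mul_zero, zero_sub, abs_neg]
  · rw [rf_ne _ _ _ h]

/-- Euler-Lagrange system at level `m` -/
structure EL (D : Set E3) (m : ℝ) (f : E3 → ℝ) : Prop where
  adm : Adm D f
  one : ∀ᵐ y, y ∈ D → V f y < m → f y = 1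
  le : ∀ x, V f x ≤ m

lemma mono1 {R : ℝ} (hR : 0 < R) {D : Set E3} (hDR : D ⊆ Metric.ball 0 R) (hD : UL D) {m : ℝ}
    {f : E3 → ℝ} (hf : EL D m f) (i : Fin 3) {a : ℝ} (ha : 0 ≤ a) {x : E3} (hx : a < x i) :
    V f x ≤ V f (rf i a x) := by
  have hR' : 0 < R + 2 * a := by positivity
  have hg1 : Good (R + 2 * a) f := by
    refine ⟨hf.adm.meas, fun y => ((hf.adm.good hDR).bd y).trans ?_⟩
    apply indicator_le_indicator_of_subset _ (fun _ => zero_le_one)
    exact Metric.ball_subset_ball (by linarith)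
  have hg2 : Good (R + 2 * a) (fun y => f (rf i a y)) := by
    refine ⟨hf.adm.meas.comp (rf_cont i a).measurable, fun y => ?_⟩
    by_cases hy : y ∈ Metric.ball (0:E3) (R + 2 * a)
    · rw [indicator_of_mem hy]
      exact (hf.adm.good hDR).abs_le_one _
    · rw [indicator_of_notMem hy, (hf.adm.good hDR).zero, abs_zero]
      intro hc
      apply hy
      rw [Metric.mem_ball] at hc ⊢
      calc dist y 0 ≤ dist y (rf i a 0) + dist (rf i a 0) 0 := dist_triangle _ _ _
        _ = dist (rf i a y) 0 + 2 * a := by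
          rw [rf_dist']
          congr 1
          unfold rf
          rw [map_zero, zero_add, dist_zero_right]
          simp [abs_of_nonneg ha]
        _ < R + 2 * a := by linarith
  set τ : E3 → ℝ := fun y => 1 * f y + (-1) * f (rf i a y) with hτ
  have hVτ : ∀ x, V τ x = V f x - V f (rf i a x) := by
    intro x
    rw [hτ, V_add hR' hg1 hg2, V_rf]
    ring
  have hgood : Good (R + 2 * a) τ := by
    refine ⟨(hg1.meas.const_mul 1).add (hg2.meas.const_mul (-1)), fun y => ?_⟩
    by_cases hy : y ∈ Metric.ball (0:E3) (R + 2 * a)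
    · rw [indicator_of_mem hy]
      have h1 := hf.adm.nonneg y
      have h2 := hf.adm.nonneg (rf i a y)
      have h3 := (le_abs_self _).trans (hg1.abs_le_one y)
      have h4 := (le_abs_self _).trans (hg2.abs_le_one y)
      show |1 * f y + (-1) * f (rf i a y)| ≤ 1
      rw [abs_le]
      constructor <;> linarith
    · rw [indicator_of_notMem hy]
      have h1 := hg1.zero hy
      have h2 : f (rf i a y) = 0 := hg2.zero hy
      show |1 * f y + (-1) * f (rf i a y)| ≤ 0
      rw [h1, h2]; simp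
  have hH : IsOpen {x : E3 | a < x i} := isOpen_lt continuous_const (by fun_prop)
  have hmain := max_principle hR' hgood hH (le_refl (0:ℝ)) ?_ ?_ x hx
  · rw [hVτ] at hmain
    linarith
  · intro y hy
    have h1 : a = y i := frontier_lt_subset_eq (f := fun _ : E3 => a) (g := fun z : E3 => z i)
      continuous_const (by fun_prop) hy
    have h2 : rf i a y = y := by
      ext j
      by_cases h : j = i
      · subst h; rw [rf_same, ← h1]; ring
      · rw [rf_ne _ _ _ h]
    rw [hVτ, h2, sub_self]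
  · have h1 := (rf_mp i a).quasiMeasurePreserving.ae hf.one
    filter_upwards [h1] with y hy hyH hyV
    rw [hVτ] at hyV
    show 1 * f y + (-1) * f (rf i a y) ≤ 0
    by_cases hyD : y ∈ D
    · have h2 := hy (hD.rf_mem ha hyD hyH) (by have := hf.le y; linarith)
      have h3 := (le_abs_self _).trans (hg1.abs_le_one y)
      linarith
    · have h2 := hf.adm.le y
      rw [indicator_of_notMem hyD] at h2
      have h3 := hf.adm.nonneg (rf i a y)
      linarith

lemma EL.flip {D : Set E3} (hD : UL D) {m : ℝ} {f : E3 → ℝ} (hf : EL D m f) (i : Fin 3) :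
    EL D m (fun y => f (rf i 0 y)) := by
  refine ⟨⟨hf.adm.meas.comp (rf_cont i 0).measurable, fun y => hf.adm.nonneg _, fun y => ?_⟩,
    ?_, fun x => ?_⟩
  · refine (hf.adm.le _).trans ?_
    by_cases hy : y ∈ D
    · rw [indicator_of_mem hy, indicator_of_mem (hD.rf0_mem hy)]; exact le_refl _
    · have : rf i 0 y ∉ D := fun hc => hy (by have := hD.rf0_mem (i := i) hc; rwa [rf_rf] at this)
      rw [indicator_of_notMem this]
      exact indicator_nonneg (fun _ _ => zero_le_one) y
  · have h1 := (rf_mp i 0).quasiMeasurePreserving.ae hf.one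
    filter_upwards [h1] with y hy hyD hyV
    rw [V_rf] at hyV
    exact hy (hD.rf0_mem hyD) hyV
  · rw [V_rf]; exact hf.le _

lemma even {R : ℝ} (hR : 0 < R) {D : Set E3} (hDR : D ⊆ Metric.ball 0 R) (hD : UL D) {m : ℝ}
    {f : E3 → ℝ} (hf : EL D m f) (i : Fin 3) (x : E3) : V f (rf i 0 x) = V f x := by
  have key : ∀ x : E3, 0 < x i → V f (rf i 0 x) = V f x := by
    intro x hx
    apply le_antisymm
    · have := mono1 hR hDR hD (hf.flip hD i) i (le_refl 0) hx
      rwa [V_rf, V_rf, rf_rf] at this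
    · exact mono1 hR hDR hD hf i (le_refl 0) hx
  rcases lt_trichotomy (x i) 0 with h | h | h
  · have := key (rf i 0 x) (by rw [rf_same]; linarith)
    rw [rf_rf] at this
    exact this.symm
  · congr 1
    ext j
    by_cases hj : j = i
    · subst hj; rw [rf_same, h]; ring
    · rw [rf_ne _ _ _ hj]
  · exact key x h

/-- change of one coordinate -/
noncomputable def upd (x : E3) (i : Fin 3) (s : ℝ) : E3 := x + EuclideanSpace.single i (s - x i)

lemma upd_same (x : E3) (i : Fin 3) (s : ℝ) : upd x i s i = s := by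
  unfold upd; simp

lemma upd_ne (x : E3) (i : Fin 3) (s : ℝ) {j : Fin 3} (h : j ≠ i) : upd x i s j = x j := by
  unfold upd; simp [h]

lemma mono2 {R : ℝ} (hR : 0 < R) {D : Set E3} (hDR : D ⊆ Metric.ball 0 R) (hD : UL D) {m : ℝ}
    {f : E3 → ℝ} (hf : EL D m f) (x : E3) (i : Fin 3) (s : ℝ) (hs : |s| ≤ |x i|) :
    V f x ≤ V f (upd x i s) := by
  have hab : ∀ (x : E3) (s : ℝ), V f (upd x i s) = V f (upd x i |s|) := by
    intro x s
    rcases le_or_gt 0 s with h | h
    · rw [abs_of_nonneg h]
    · rw [abs_of_neg h, ← even hR hDR hD hf i (upd x i s)]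
      congr 1
      ext j
      by_cases hj : j = i
      · subst hj; rw [rf_same, upd_same, upd_same]; ring
      · rw [rf_ne _ _ _ hj, upd_ne _ _ _ hj, upd_ne _ _ _ hj]
  have hx : V f x = V f (upd x i |x i|) := by
    rw [← hab]
    congr 1
    ext j
    by_cases hj : j = i
    · subst hj; rw [upd_same]
    · rw [upd_ne _ _ _ hj]
  rw [hx, hab x s]
  rcases hs.eq_or_lt with h | h
  · rw [h]
  · have h1 := mono1 hR hDR hD hf i (a := (|s| + |x i|) / 2) (by positivity)
      (x := upd x i |x i|) (by rw [upd_same]; linarith)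
    convert h1 using 2
    ext j
    by_cases hj : j = i
    · subst hj; rw [rf_same, upd_same, upd_same]; ring
    · rw [rf_ne _ _ _ hj, upd_ne _ _ _ hj, upd_ne _ _ _ hj]

/-- the potential is unconditional and decreasing in the moduli of the coordinates -/
theorem mono {R : ℝ} (hR : 0 < R) {D : Set E3} (hDR : D ⊆ Metric.ball 0 R) (hD : UL D) {m : ℝ}
    {f : E3 → ℝ} (hf : EL D m f) (x y : E3) (h : ∀ i, |y i| ≤ |x i|) : V f x ≤ V f y := by
  have e : y = upd (upd (upd x 0 (y 0)) 1 (y 1)) 2 (y 2) := by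
    have e0 : y 0 = (upd (upd (upd x 0 (y 0)) 1 (y 1)) 2 (y 2)) 0 := by
      rw [upd_ne _ _ _ (by decide), upd_ne _ _ _ (by decide), upd_same]
    have e1 : y 1 = (upd (upd (upd x 0 (y 0)) 1 (y 1)) 2 (y 2)) 1 := by
      rw [upd_ne _ _ _ (by decide), upd_same]
    have e2 : y 2 = (upd (upd (upd x 0 (y 0)) 1 (y 1)) 2 (y 2)) 2 := by
      rw [upd_same]
    ext j
    fin_cases j
    exacts [e0, e1, e2]
  have h1 := mono2 hR hDR hD hf x 0 (y 0) (h 0)
  have h2 := mono2 hR hDR hD hf (upd x 0 (y 0)) 1 (y 1)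
    (by rw [upd_ne _ _ _ (by decide)]; exact h 1)
  have h3 := mono2 hR hDR hD hf (upd (upd x 0 (y 0)) 1 (y 1)) 2 (y 2)
    (by rw [upd_ne _ _ _ (by decide), upd_ne _ _ _ (by decide)]; exact h 2)
  rw [e]
  exact (h1.trans h2).trans h3

end Pool.Agent.T9h72.HS
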