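import Pool.Agent.T9h72.HS.Bil

/-! Weak sequential compactness of the class of densities between `0` and `1_D`. -/

open MeasureTheory Set Filter Topology
open scoped ENNReal InnerProductSpace

namespace Pool.Agent.T9h72.HS

open Pool.Agent.H283R3.Newt

/-- admissible densities -/
structure Adm (D : Set E3) (f : E3 → ℝ) : Prop where
  meas : Measurable f
  nonneg : ∀ y, 0 ≤ f y
  le : ∀ y, f y ≤ D.indicator 1 y

lemma Adm.good {R : ℝ} {D : Set E3} (hD : D ⊆ Metric.ball 0 R) {f : E3 → ℝ} (h : Adm D f) :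
    Good R f := by
  refine ⟨h.meas, fun y => ?_⟩
  rw [abs_of_nonneg (h.nonneg y)]
  refine (h.le y).trans ?_
  exact indicator_le_indicator_of_subset hD (fun _ => zero_le_one) y

/-- the ambient finite measure -/
noncomputable abbrev mu (R : ℝ) : Measure E3 := volume.restrict (Metric.ball (0:E3) R)

instance (R : ℝ) : IsFiniteMeasure (mu R) :=
  ⟨by rw [Measure.restrict_apply_univ]; exact measure_ball_lt_top⟩

lemma memLp_bdd (R : ℝ) {g : E3 → ℝ} (hg : Measurable g) {C : ℝ} (hC : ∀ y, |g y| ≤ C) :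
    MemLp g 2 (mu R) :=
  MemLp.of_bound hg.aestronglyMeasurable C (ae_of_all _ hC)

theorem weak_compact {R : ℝ} {D : Set E3} (hDm : MeasurableSet D)
    (hD : D ⊆ Metric.ball 0 R) (F : ℕ → E3 → ℝ) (hF : ∀ n, Adm D (F n)) :
    ∃ (f : E3 → ℝ) (φ : ℕ → ℕ), Adm D f ∧ StrictMono φ ∧
      ∀ g : E3 → ℝ, Measurable g → (∃ C, ∀ y, |g y| ≤ C) →
        Tendsto (fun n => ∫ y, F (φ n) y * g y ∂(mu R)) atTop (𝓝 (∫ y, f y * g y ∂(mu R))) := by
  have hFb : ∀ n y, |F n y| ≤ 1 := fun n y => ((hF n).good hD).abs_le_one y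
  have hFm : ∀ n, MemLp (F n) 2 (mu R) := fun n => memLp_bdd R (hF n).meas (hFb n)
  set G : ℕ → Lp ℝ 2 (mu R) := fun n => (hFm n).toLp (F n) with hG
  obtain ⟨C, hC⟩ : ∃ C : ℝ, ∀ n, ‖G n‖ ≤ C := by
    refine ⟨_, fun n => Lp.norm_le_of_ae_bound (C := 1) (by norm_num) ?_⟩
    filter_upwards [(hFm n).coeFn_toLp] with y hy
    rw [hG, hy]
    exact hFb n y
  have hp2 : Fact ((2:ℝ≥0∞) ≠ ∞) := ⟨by norm_num⟩
  have hsc : SecondCountableTopology (Lp ℝ 2 (mu R)) := inferInstance
  have hseq := WeakDual.isSeqCompact_closedBall ℝ (Lp ℝ 2 (mu R)) (0 : StrongDual ℝ (Lp ℝ 2 (mu R))) C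
  obtain ⟨a, ha, φ, hφ, hlim⟩ := hseq (x := fun n => StrongDual.toWeakDual (innerSL ℝ (G n)))
    (fun n => by
      show StrongDual.toWeakDual (innerSL ℝ (G n)) ∈ WeakDual.toStrongDual ⁻¹' Metric.closedBall 0 C
      rw [mem_preimage, mem_closedBall_zero_iff]
      show ‖innerSL ℝ (G n)‖ ≤ C
      rw [innerSL_apply_norm]
      exact hC n)
  have hev : ∀ g : Lp ℝ 2 (mu R), Tendsto (fun n => ⟪G (φ n), g⟫_ℝ) atTop (𝓝 (a g)) := by
    intro g
    have := ((WeakDual.eval_continuous (𝕜 := ℝ) (E := Lp ℝ 2 (mu R)) g).tendsto a).comp hlim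
    exact this
  set f0 : Lp ℝ 2 (mu R) := (InnerProductSpace.toDual ℝ (Lp ℝ 2 (mu R))).symm
    (WeakDual.toStrongDual a) with hf0
  have hev' : ∀ g : Lp ℝ 2 (mu R), Tendsto (fun n => ⟪G (φ n), g⟫_ℝ) atTop (𝓝 ⟪f0, g⟫_ℝ) := by
    intro g
    rw [hf0, InnerProductSpace.toDual_symm_apply]
    exact hev g
  -- test against bounded functions
  have htest : ∀ g : E3 → ℝ, Measurable g → (∃ C, ∀ y, |g y| ≤ C) →
      Tendsto (fun n => ∫ y, F (φ n) y * g y ∂(mu R)) atTop (𝓝 (∫ y, f0 y * g y ∂(mu R))) := by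
    rintro g hg ⟨B, hB⟩
    have hgm := memLp_bdd R hg hB
    have h1 := hev' (hgm.toLp g)
    have e1 : ∀ n, ⟪G (φ n), hgm.toLp g⟫_ℝ = ∫ y, F (φ n) y * g y ∂(mu R) := by
      intro n
      rw [L2.inner_def]
      apply integral_congr_ae
      filter_upwards [(hFm (φ n)).coeFn_toLp, hgm.coeFn_toLp] with y h1 h2
      rw [hG]
      simp only [h1, h2]
      simp [mul_comm]
    have e2 : ⟪f0, hgm.toLp g⟫_ℝ = ∫ y, f0 y * g y ∂(mu R) := by
      rw [L2.inner_def]
      apply integral_congr_ae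
      filter_upwards [hgm.coeFn_toLp] with y h2
      simp only [h2]
      simp [mul_comm]
    simp_rw [e1, e2] at h1
    exact h1
  have hf0int : Integrable f0 (mu R) := (Lp.memLp f0).integrable (by norm_num)
  have hset : ∀ A : Set E3, MeasurableSet A →
      Tendsto (fun n => ∫ y in A, F (φ n) y ∂(mu R)) atTop (𝓝 (∫ y in A, f0 y ∂(mu R))) := by
    intro A hA
    have h1 := htest (A.indicator 1) (measurable_one.indicator hA)
      ⟨1, fun y => by unfold indicator; split_ifs <;> simp⟩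
    have e : ∀ h : E3 → ℝ, ∫ y, h y * A.indicator 1 y ∂(mu R) = ∫ y in A, h y ∂(mu R) := by
      intro h
      rw [← integral_indicator hA]
      congr 1
      ext y
      by_cases hy : y ∈ A
      · simp [hy]
      · simp [hy]
    simp_rw [e] at h1
    exact h1
  have hFint : ∀ n, Integrable (F n) (mu R) := fun n => (hFm n).integrable (by norm_num)
  have hDint : Integrable (D.indicator (1 : E3 → ℝ)) (mu R) :=
    (integrable_const (1:ℝ)).indicator hDm
  have h0 : 0 ≤ᵐ[mu R] f0 := by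
    apply ae_nonneg_of_forall_setIntegral_nonneg hf0int
    intro A hA _
    refine ge_of_tendsto' (hset A hA) fun n => ?_
    exact integral_nonneg fun y => (hF _).nonneg y
  have h1 : 0 ≤ᵐ[mu R] fun y => D.indicator 1 y - f0 y := by
    apply ae_nonneg_of_forall_setIntegral_nonneg (hDint.sub hf0int)
    intro A hA _
    have e : ∫ y in A, (D.indicator (1 : E3 → ℝ) - (f0 : E3 → ℝ)) y ∂(mu R) =
        (∫ y in A, D.indicator (1 : E3 → ℝ) y ∂(mu R)) - ∫ y in A, f0 y ∂(mu R) :=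
      integral_sub hDint.integrableOn hf0int.integrableOn
    rw [e, sub_nonneg]
    refine le_of_tendsto' (hset A hA) fun n => ?_
    exact integral_mono (hFint _).integrableOn hDint.integrableOn fun y => (hF _).le y
  obtain ⟨f1, hf1m, hf1⟩ : ∃ f1 : E3 → ℝ, Measurable f1 ∧ f0 =ᵐ[mu R] f1 :=
    ⟨_, (Lp.aestronglyMeasurable f0).aemeasurable.measurable_mk,
      (Lp.aestronglyMeasurable f0).aemeasurable.ae_eq_mk⟩
  refine ⟨fun y => max 0 (min (D.indicator 1 y) (f1 y)), φ, ⟨?_, ?_, ?_⟩, hφ, ?_⟩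
  · exact measurable_const.max ((measurable_one.indicator hDm).min hf1m)
  · intro y; exact le_max_left _ _
  · intro y
    refine max_le ?_ (min_le_left _ _)
    exact indicator_nonneg (fun _ _ => zero_le_one) y
  · intro g hg hb
    have e : ∫ y, max 0 (min (D.indicator 1 y) (f1 y)) * g y ∂(mu R) = ∫ y, f0 y * g y ∂(mu R) := by
      apply integral_congr_ae
      filter_upwards [h0, h1, hf1] with y a1 a2 a3
      have a1' : 0 ≤ f0 y := a1
      have a2' : 0 ≤ D.indicator 1 y - f0 y := a2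
      rw [← a3, min_eq_right (by linarith), max_eq_right a1']
    rw [e]
    exact htest g hg hb

end Pool.Agent.T9h72.HS
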